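import Mathlib

/-!
By helper1 (formerly the hand-in `MP_0ea415_nt.PalindromicCoding`, now item (5) of
`MP_0ea415_nt.CounterexampleStructure`).
-/

namespace Pool.Agent.H1.PC

open Finset

/-- Complete quotients of the minus (Hirzebruch–Jung) continued fraction of `α`:
`x_0 = α`, `x_{k+1} = 1 / (⌈x_k⌉ - x_k)`. -/
noncomputable def cquot (α : ℝ) : ℕ → ℝ
  | 0 => α
  | (k + 1) => 1 / ((⌈cquot α k⌉ : ℝ) - cquot α k)

/-- Partial quotients `c_k = ⌈x_k⌉`, so that `α = c_0 - 1/(c_1 - 1/(c_2 - ...))`. -/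
noncomputable def pq (α : ℝ) (k : ℕ) : ℤ := ⌈cquot α k⌉

/-- Denominators of the convergents: `Q_0 = 0`, `Q_1 = 1`, `Q_{k+2} = c_{k+1} Q_{k+1} - Q_k`. -/
noncomputable def den (α : ℝ) : ℕ → ℤ
  | 0 => 0
  | 1 => 1
  | (k + 2) => pq α (k + 1) * den α (k + 1) - den α k

/-- The `k`-th digit of an integer sequence `R` with respect to `α`:
`e_k = R_{k+2} - c_{k+1} R_{k+1} + R_k`. -/
noncomputable def digit (α : ℝ) (R : ℕ → ℤ) (k : ℕ) : ℤ :=
  R (k + 2) - pq α (k + 1) * R (k + 1) + R k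

/-- numerators -/
noncomputable def num (α : ℝ) : ℕ → ℤ
  | 0 => 1
  | 1 => pq α 0
  | (k + 2) => pq α (k + 1) * num α (k + 1) - num α k

/-- `θ_k = P_k - Q_k α` -/
noncomputable def th (α : ℝ) (k : ℕ) : ℝ := num α k - den α k * α

section basics

variable {α : ℝ} (hα : Irrational α)
include hα

lemma cquot_irr (k : ℕ) : Irrational (cquot α k) := by
  induction k with
  | zero => exact hα
  | succ k ih =>
    unfold cquot
    rw [one_div]
    apply Irrational.inv
    exact ih.intCast_sub _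

lemma gap_pos (k : ℕ) : 0 < (pq α k : ℝ) - cquot α k ∧ (pq α k : ℝ) - cquot α k < 1 := by
  have h := cquot_irr hα k
  have h1 := Int.le_ceil (cquot α k)
  have h2 := Int.ceil_lt_add_one (cquot α k)
  have h3 : cquot α k ≠ (⌈cquot α k⌉ : ℝ) := h.ne_int _
  unfold pq
  refine ⟨?_, by linarith⟩
  rcases lt_or_eq_of_le h1 with h4 | h4
  · linarith
  · exact absurd h4 h3

lemma cquot_gt (k : ℕ) : 1 < cquot α (k + 1) := by
  have h := gap_pos hα k
  have e : cquot α (k + 1) = 1 / ((pq α k : ℝ) - cquot α k) := rfl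
  rw [e, lt_div_iff₀ h.1]
  linarith

lemma pq_ge (k : ℕ) : 2 ≤ pq α (k + 1) := by
  have h := cquot_gt hα k
  have h1 : (1 : ℤ) < ⌈cquot α (k + 1)⌉ := by
    rw [Int.lt_ceil]; exact_mod_cast h
  unfold pq; omega

omit hα in
lemma th_rec (k : ℕ) : th α (k + 2) = pq α (k + 1) * th α (k + 1) - th α k := by
  have h1 : (num α (k + 2) : ℝ) = pq α (k + 1) * num α (k + 1) - num α k := by
    have : num α (k + 2) = pq α (k + 1) * num α (k + 1) - num α k := rfl
    rw [this]; push_cast; ring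
  have h2 : (den α (k + 2) : ℝ) = pq α (k + 1) * den α (k + 1) - den α k := by
    have : den α (k + 2) = pq α (k + 1) * den α (k + 1) - den α k := rfl
    rw [this]; push_cast; ring
  unfold th
  rw [h1, h2]; ring

lemma th_pos (k : ℕ) : 0 < th α k ∧ th α (k + 1) = ((pq α k : ℝ) - cquot α k) * th α k := by
  induction k with
  | zero =>
    have h0 : th α 0 = 1 := by simp [th, num, den]
    have h1 : th α 1 = pq α 0 - α := by simp [th, num, den]
    have h2 : cquot α 0 = α := rfl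
    rw [h0, h1, h2]
    constructor <;> norm_num
  | succ k ih =>
    have hg := gap_pos hα k
    have h1 : 0 < th α (k + 1) := by rw [ih.2]; exact mul_pos hg.1 ih.1
    refine ⟨h1, ?_⟩
    rw [th_rec k]
    have e : cquot α (k + 1) = 1 / ((pq α k : ℝ) - cquot α k) := rfl
    have h2 : cquot α (k + 1) * th α (k + 1) = th α k := by
      rw [e, ih.2, one_div, ← mul_assoc, inv_mul_cancel₀ hg.1.ne', one_mul]
    linear_combination h2

lemma th_lt (k : ℕ) : th α (k + 1) < th α k := by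
  have h := th_pos hα k
  have hg := gap_pos hα k
  rw [h.2]
  nlinarith [h.1]

lemma den_inc (k : ℕ) : 0 ≤ den α k ∧ 1 ≤ den α (k + 1) - den α k := by
  induction k with
  | zero => simp [den]
  | succ k ih =>
    have h1 : den α (k + 1 + 1) = pq α (k + 1) * den α (k + 1) - den α k := rfl
    have h2 := pq_ge hα k
    refine ⟨by omega, ?_⟩
    rw [h1]
    nlinarith [ih.1, ih.2]

omit hα in
lemma det (k : ℕ) : (den α (k + 1) : ℝ) * th α k - den α k * th α (k + 1) = 1 := by
  induction k with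
  | zero => simp [den, th, num]
  | succ k ih =>
    have h2 : (den α (k + 1 + 1) : ℝ) = pq α (k + 1) * den α (k + 1) - den α k := by
      have : den α (k + 1 + 1) = pq α (k + 1) * den α (k + 1) - den α k := rfl
      rw [this]; push_cast; ring
    have h3 : th α (k + 1 + 1) = pq α (k + 1) * th α (k + 1) - th α k := th_rec k
    rw [h2, h3]
    linear_combination ih

end basics

/-! ### badly approximable case -/

section bad

variable {α : ℝ} (hα : Irrational α) {δ : ℝ} (hδ : 0 < δ)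
  (hbad : ∀ q : ℕ, 0 < q → ∀ p : ℤ, δ ≤ (q : ℝ) * |(q : ℝ) * α - p|)
include hα hδ hbad

lemma bad_int (q : ℤ) (hq : 0 < q) (p : ℤ) : δ ≤ (q : ℝ) * |(q : ℝ) * α - p| := by
  obtain ⟨n, rfl⟩ : ∃ n : ℕ, q = n := ⟨q.toNat, by omega⟩
  exact_mod_cast hbad n (by exact_mod_cast hq) p

lemma step_facts (k : ℕ) : th α (k + 1) ≤ (1 - δ) * th α k ∧
    (1 + δ) * (den α k : ℝ) ≤ den α (k + 1) ∧ (den α k : ℝ) * th α k ≤ 1 / δ := by
  have hinc := den_inc hα k
  have hA1 : (1 : ℝ) ≤ (den α (k + 1) : ℝ) - den α k := by exact_mod_cast hinc.2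
  have hQ0 : (0 : ℝ) ≤ den α k := by exact_mod_cast hinc.1
  have hdet := det (α := α) k
  have hth := (th_pos hα k).1
  have hth1 := (th_pos hα (k + 1)).1
  have hlt := th_lt hα k
  set A : ℝ := (den α (k + 1) : ℝ) - den α k with hA
  set B : ℝ := th α k - th α (k + 1) with hB
  have hBpos : 0 < B := by linarith
  have hid : A * th α k + den α k * B = 1 := by
    rw [hA, hB]; linear_combination hdet
  have hAB : δ ≤ A * B := by
    have h := bad_int hα hδ hbad (den α (k + 1) - den α k) (by omega)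
      (num α (k + 1) - num α k)
    have e : ((den α (k + 1) - den α k : ℤ) : ℝ) * α - ((num α (k + 1) - num α k : ℤ) : ℝ) = B := by
      rw [hB]; unfold th; push_cast; ring
    rw [e, abs_of_pos hBpos] at h
    push_cast at h
    exact h
  have h1 : A * th α k ≤ 1 := by nlinarith
  have h2 : (den α k : ℝ) * B ≤ 1 := by nlinarith
  -- δ θ ≤ B
  have h3 : δ * th α k ≤ B := by
    have : δ * th α k ≤ (A * B) * th α k := mul_le_mul_of_nonneg_right hAB hth.le
    have h4 : (A * B) * th α k = (A * th α k) * B := by ring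
    nlinarith
  have h5 : δ * den α k ≤ A := by
    have : δ * den α k ≤ (A * B) * den α k := mul_le_mul_of_nonneg_right hAB hQ0
    have h4 : (A * B) * den α k = A * (den α k * B) := by ring
    nlinarith
  refine ⟨by linarith, by linarith, ?_⟩
  rw [le_div_iff₀ hδ]
  have h6 : (den α k : ℝ) * th α k * δ = (δ * den α k) * th α k := by ring
  rw [h6]
  exact (mul_le_mul_of_nonneg_right h5 hth.le).trans h1

lemma delta_le_one : δ ≤ 1 := by
  have h := hbad 1 one_pos (round α)
  have h1 := abs_sub_round α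
  simp only [Nat.cast_one, one_mul] at h
  linarith

lemma th_decay (k j : ℕ) : th α (k + j) ≤ (1 - δ) ^ j * th α k := by
  have hd := delta_le_one hα hδ hbad
  induction j with
  | zero => simp
  | succ j ih =>
    have h := (step_facts hα hδ hbad (k + j)).1
    have e : k + (j + 1) = k + j + 1 := by ring
    rw [e, pow_succ]
    have h2 : (1 - δ) * th α (k + j) ≤ (1 - δ) * ((1 - δ) ^ j * th α k) :=
      mul_le_mul_of_nonneg_left ih (by linarith)
    linarith

lemma den_growth (k j : ℕ) : (1 + δ) ^ j * (den α k : ℝ) ≤ den α (k + j) := by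
  induction j with
  | zero => simp
  | succ j ih =>
    have h := (step_facts hα hδ hbad (k + j)).2.1
    have e : k + (j + 1) = k + j + 1 := by ring
    rw [e, pow_succ]
    have h2 : (1 + δ) * ((1 + δ) ^ j * (den α k : ℝ)) ≤ (1 + δ) * den α (k + j) :=
      mul_le_mul_of_nonneg_left ih (by linarith)
    linarith

lemma pq_bound (k : ℕ) : (pq α (k + 1) : ℝ) ≤ 1 + (1 + 1 / δ) / δ := by
  have h1 := (step_facts hα hδ hbad (k + 1)).2.2
  have hdet := det (α := α) (k + 1)
  have hth := (th_pos hα (k + 1)).1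
  have hlt := th_lt hα (k + 1)
  have hinc := den_inc hα k
  have hQ0 : (0 : ℝ) ≤ den α k := by exact_mod_cast hinc.1
  have hQ1 : (1 : ℝ) ≤ den α (k + 1) - den α k := by exact_mod_cast hinc.2
  have h2 : (den α (k + 1 + 1) : ℝ) = pq α (k + 1) * den α (k + 1) - den α k := by
    have : den α (k + 1 + 1) = pq α (k + 1) * den α (k + 1) - den α k := rfl
    rw [this]; push_cast; ring
  have h3 : δ ≤ (den α (k + 1) : ℝ) * th α (k + 1) := by
    have h := bad_int hα hδ hbad (den α (k + 1)) (by omega) (num α (k + 1))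
    have e : (den α (k + 1) : ℝ) * α - (num α (k + 1) : ℝ) = -th α (k + 1) := by
      unfold th; ring
    rw [e, abs_neg, abs_of_pos hth] at h
    exact h
  have h4 : (den α (k + 1 + 1) : ℝ) * th α (k + 1) ≤ 1 + 1 / δ := by
    have h5 : (den α (k + 1) : ℝ) * th α (k + 1 + 1) ≤ den α (k + 1) * th α (k + 1) :=
      mul_le_mul_of_nonneg_left hlt.le (by linarith)
    linarith
  have hc : (2 : ℝ) ≤ pq α (k + 1) := by exact_mod_cast pq_ge hα k
  have h6 : ((pq α (k + 1) : ℝ) - 1) * (den α (k + 1) * th α (k + 1)) ≤ 1 + 1 / δ := by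
    refine le_trans ?_ h4
    rw [h2]
    nlinarith
  have h7 : ((pq α (k + 1) : ℝ) - 1) * δ ≤ 1 + 1 / δ := by
    refine le_trans ?_ h6
    exact mul_le_mul_of_nonneg_left h3 (by linarith)
  have h8 : (pq α (k + 1) : ℝ) - 1 ≤ (1 + 1 / δ) / δ := by
    rw [le_div_iff₀ hδ]; exact h7
  linarith

/-- `Q_{k+2} θ_k` is bounded -/
lemma prod_bound (k : ℕ) : (den α (k + 2) : ℝ) * th α k ≤ 1 + (1 + 1 / δ) / δ + 1 / δ := by
  have hc := pq_bound hα hδ hbad k
  have h1 := (step_facts hα hδ hbad k).2.2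
  have hdet := det (α := α) k
  have hdet1 := det (α := α) (k + 1)
  have h2 : (den α (k + 2) : ℝ) = pq α (k + 1) * den α (k + 1) - den α k := by
    have : den α (k + 2) = pq α (k + 1) * den α (k + 1) - den α k := rfl
    rw [this]; push_cast; ring
  have h3 : th α (k + 2) = pq α (k + 1) * th α (k + 1) - th α k := th_rec k
  have hid : (den α (k + 2) : ℝ) * th α k = pq α (k + 1) + den α k * th α (k + 2) := by
    rw [h2, h3]
    linear_combination (pq α (k + 1) : ℝ) * hdet
  have hinc := den_inc hα k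
  have hQ0 : (0 : ℝ) ≤ den α k := by exact_mod_cast hinc.1
  have h4 : (den α k : ℝ) * th α (k + 2) ≤ den α k * th α k := by
    apply mul_le_mul_of_nonneg_left _ hQ0
    have a1 := th_lt hα k
    have a2 := th_lt hα (k + 1)
    have e : k + 1 + 1 = k + 2 := rfl
    rw [e] at a2
    linarith
  linarith

/-- a solution of the recurrence on a window which is bounded at both ends is tiny inside -/
lemma window (y : ℕ → ℝ) (M : ℝ) (hM : ∀ k, |y k| ≤ M) (a s : ℕ)
    (hrec : ∀ i < s, y (a + i + 2) = pq α (a + i + 1) * y (a + i + 1) - y (a + i))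
    (i : ℕ) (hi' : i + 1 ≤ s) :
    |y (a + 1 + i)| ≤ 2 * M * (1 / δ) * ((1 - δ) ^ (s - 1 - i) + 1 / (1 + δ) ^ i) := by
  have hM0 : 0 ≤ M := (abs_nonneg _).trans (hM 0)
  have hi : i ≤ s := by omega
  have hd1 := delta_le_one hα hδ hbad
  -- Casoratians
  have hW : ∀ j ≤ s, y (a + j + 1) * th α (a + j) - y (a + j) * th α (a + j + 1) =
      y (a + 1) * th α a - y a * th α (a + 1) := by
    intro j
    induction j with
    | zero => intro _; simp
    | succ j ih =>
      intro hj
      rw [← ih (by omega)]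
      have h1 := hrec j (by omega)
      have h2 : th α (a + j + 2) = pq α (a + j + 1) * th α (a + j + 1) - th α (a + j) :=
        th_rec (a + j)
      have e1 : a + (j + 1) + 1 = a + j + 2 := by ring
      have e2 : a + (j + 1) = a + j + 1 := by ring
      rw [e1, e2, h1, h2]; ring
  have hW' : ∀ j ≤ s, y (a + j + 1) * den α (a + j) - y (a + j) * den α (a + j + 1) =
      y (a + 1) * den α a - y a * den α (a + 1) := by
    intro j
    induction j with
    | zero => intro _; simp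
    | succ j ih =>
      intro hj
      rw [← ih (by omega)]
      have h1 := hrec j (by omega)
      have h2 : (den α (a + j + 2) : ℝ) = pq α (a + j + 1) * den α (a + j + 1) - den α (a + j) := by
        have : den α (a + j + 2) = pq α (a + j + 1) * den α (a + j + 1) - den α (a + j) := rfl
        rw [this]; push_cast; ring
      have e1 : a + (j + 1) + 1 = a + j + 2 := by ring
      have e2 : a + (j + 1) = a + j + 1 := by ring
      rw [e1, e2, h1, h2]; ring
  have hWs := hW s le_rfl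
  have hWi := hW i hi
  have hW'i := hW' i hi
  have hdet := det (α := α) (a + i)
  -- y (a+i+1) in terms of the constants
  set w : ℝ := y (a + 1) * th α a - y a * th α (a + 1) with hw
  set w' : ℝ := y (a + 1) * den α a - y a * den α (a + 1) with hw'
  have hy : y (a + i + 1) = den α (a + i + 1) * w - th α (a + i + 1) * w' := by
    linear_combination (-(y (a + i + 1))) * hdet - (den α (a + i + 1) : ℝ) * hWi * (-1) +
      th α (a + i + 1) * hW'i * (-1)
  have hthpos : ∀ k, 0 < th α k := fun k => (th_pos hα k).1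
  have hthle : ∀ k, th α (k + 1) ≤ th α k := fun k => (th_lt hα k).le
  have hdenpos : ∀ k, (0 : ℝ) ≤ den α k := fun k => by exact_mod_cast (den_inc hα k).1
  have hdenle : ∀ k, (den α k : ℝ) ≤ den α (k + 1) := fun k => by
    have := (den_inc hα k).2
    have h2 : den α k ≤ den α (k + 1) := by omega
    exact_mod_cast h2
  have hw_abs : |w| ≤ 2 * M * th α (a + s) := by
    rw [← hWs]
    refine (abs_sub _ _).trans ?_
    rw [abs_mul, abs_mul, abs_of_pos (hthpos _), abs_of_pos (hthpos _)]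
    have a1 : |y (a + s + 1)| * th α (a + s) ≤ M * th α (a + s) :=
      mul_le_mul_of_nonneg_right (hM _) (hthpos _).le
    have a2 : |y (a + s)| * th α (a + s + 1) ≤ M * th α (a + s) :=
      mul_le_mul (hM _) (hthle _) (hthpos _).le hM0
    linarith
  have hw'_abs : |w'| ≤ 2 * M * den α (a + 1) := by
    rw [hw']
    refine (abs_sub _ _).trans ?_
    rw [abs_mul, abs_mul, abs_of_nonneg (hdenpos _), abs_of_nonneg (hdenpos _)]
    have a1 : |y (a + 1)| * (den α a : ℝ) ≤ M * den α (a + 1) :=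
      mul_le_mul (hM _) (hdenle _) (hdenpos _) hM0
    have a2 : |y a| * (den α (a + 1) : ℝ) ≤ M * den α (a + 1) :=
      mul_le_mul_of_nonneg_right (hM _) (hdenpos _)
    linarith
  -- bounds of the products
  have hc1 : (den α (a + i + 1) : ℝ) * th α (a + s) ≤ (1 / δ) * (1 - δ) ^ (s - 1 - i) := by
    have h1 := th_decay hα hδ hbad (a + i + 1) (s - 1 - i)
    have e : a + i + 1 + (s - 1 - i) = a + s := by omega
    rw [e] at h1
    have h2 := (step_facts hα hδ hbad (a + i + 1)).2.2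
    calc (den α (a + i + 1) : ℝ) * th α (a + s)
        ≤ den α (a + i + 1) * ((1 - δ) ^ (s - 1 - i) * th α (a + i + 1)) :=
          mul_le_mul_of_nonneg_left h1 (hdenpos _)
      _ = (1 - δ) ^ (s - 1 - i) * (den α (a + i + 1) * th α (a + i + 1)) := by ring
      _ ≤ (1 - δ) ^ (s - 1 - i) * (1 / δ) :=
          mul_le_mul_of_nonneg_left h2 (pow_nonneg (by linarith) _)
      _ = _ := by ring
  have hc2 : th α (a + i + 1) * (den α (a + 1) : ℝ) ≤ (1 / δ) * (1 / (1 + δ) ^ i) := by
    have h1 := den_growth hα hδ hbad (a + 1) i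
    have e : a + 1 + i = a + i + 1 := by omega
    rw [e] at h1
    have h2 := (step_facts hα hδ hbad (a + i + 1)).2.2
    have hp : 0 < (1 + δ) ^ i := by positivity
    rw [mul_one_div, le_div_iff₀ hp]
    calc th α (a + i + 1) * (den α (a + 1) : ℝ) * (1 + δ) ^ i
        = th α (a + i + 1) * ((1 + δ) ^ i * (den α (a + 1) : ℝ)) := by ring
      _ ≤ th α (a + i + 1) * den α (a + i + 1) :=
          mul_le_mul_of_nonneg_left h1 (hthpos _).le
      _ ≤ 1 / δ := by rw [mul_comm]; exact h2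
  have e : a + 1 + i = a + i + 1 := by omega
  rw [e, hy]
  refine (abs_sub _ _).trans ?_
  rw [abs_mul, abs_mul, abs_of_nonneg (hdenpos _), abs_of_pos (hthpos _)]
  have f1 : (den α (a + i + 1) : ℝ) * |w| ≤ den α (a + i + 1) * (2 * M * th α (a + s)) :=
    mul_le_mul_of_nonneg_left hw_abs (hdenpos _)
  have f2 : th α (a + i + 1) * |w'| ≤ th α (a + i + 1) * (2 * M * den α (a + 1)) :=
    mul_le_mul_of_nonneg_left hw'_abs (hthpos _).le
  have f3 := mul_le_mul_of_nonneg_left hc1 (show 0 ≤ 2 * M by positivity)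
  have f4 := mul_le_mul_of_nonneg_left hc2 (show 0 ≤ 2 * M by positivity)
  calc _ ≤ 2 * M * (den α (a + i + 1) * th α (a + s)) +
        2 * M * (th α (a + i + 1) * (den α (a + 1) : ℝ)) := by linarith
    _ ≤ 2 * M * (1 / δ * (1 - δ) ^ (s - 1 - i)) + 2 * M * (1 / δ * (1 / (1 + δ) ^ i)) := by
        linarith
    _ = _ := by ring

end bad


/-! ### the main argument -/

/-- the difference between `V` and its reflection satisfies the homogeneous recurrence -/
lemma reflect_rec {α β : ℝ} {R : ℕ → ℤ} (n l : ℕ) (τ : ℤ) (hτ : τ = 1 ∨ τ = -1)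
    (hpal : ∀ i < l, pq α (n + i + 1) = pq α (n + (l - 1 - i) + 1) ∧
      digit α R (n + i) = τ * digit α R (n + (l - 1 - i))) (i : ℕ) (hi : i < l) :
    ((den α (n + i + 2) : ℝ) * β - R (n + i + 2)) -
        τ * ((den α (n + (l - 1 - i)) : ℝ) * β - R (n + (l - 1 - i))) =
      pq α (n + i + 1) * (((den α (n + i + 1) : ℝ) * β - R (n + i + 1)) -
        τ * ((den α (n + (l - 1 - i) + 1) : ℝ) * β - R (n + (l - 1 - i) + 1))) -
      (((den α (n + i) : ℝ) * β - R (n + i)) -
        τ * ((den α (n + (l - 1 - i) + 2) : ℝ) * β - R (n + (l - 1 - i) + 2))) := by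
  obtain ⟨h1, h2⟩ := hpal i hi
  have hrec : ∀ k, (den α (k + 2) : ℝ) = pq α (k + 1) * den α (k + 1) - den α k := by
    intro k
    have : den α (k + 2) = pq α (k + 1) * den α (k + 1) - den α k := rfl
    rw [this]; push_cast; ring
  have hdig : ∀ k, (digit α R k : ℝ) = R (k + 2) - pq α (k + 1) * R (k + 1) + R k := by
    intro k; unfold digit; push_cast; ring
  have h3 := hdig (n + i)
  have h4 := hdig (n + (l - 1 - i))
  have h5 := hrec (n + i)
  have h6 := hrec (n + (l - 1 - i))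
  have h7 : (digit α R (n + i) : ℝ) = τ * digit α R (n + (l - 1 - i)) := by exact_mod_cast h2
  have h8 : (pq α (n + (l - 1 - i) + 1) : ℝ) = pq α (n + i + 1) := by rw [h1]
  rw [h8] at h4 h6
  have hττ : (τ : ℝ) * τ = 1 := by
    rcases hτ with h | h <;> rw [h] <;> norm_num
  linear_combination β * h5 - τ * β * h6 - h7 - h3 * (-1) - τ * h4 + 0 * hττ


/-- the badly approximable case -/
lemma bad_case {α : ℝ} (hα : Irrational α) {δ : ℝ} (hδ : 0 < δ)
    (hbad : ∀ q : ℕ, 0 < q → ∀ p : ℤ, δ ≤ (q : ℝ) * |(q : ℝ) * α - p|)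
    {β : ℝ} {R : ℕ → ℤ} {M : ℝ} (hM : ∀ k, |(den α k : ℝ) * β - R k| ≤ M)
    (hpal : ∀ L : ℕ, ∃ n l : ℕ, ∃ τ : ℤ, L ≤ l ∧ (τ = 1 ∨ τ = -1) ∧
      ∀ i < l, pq α (n + i + 1) = pq α (n + (l - 1 - i) + 1) ∧
        digit α R (n + i) = τ * digit α R (n + (l - 1 - i)))
    (ε : ℝ) (hε : 0 < ε) (N : ℕ) :
    ∃ q : ℕ, N ≤ q ∧ 0 < q ∧ ∃ p r : ℤ,
      (q : ℝ) * |(q : ℝ) * α - p| * |(q : ℝ) * β - r| < ε := by
  have hM0 : 0 ≤ M := (abs_nonneg _).trans (hM 0)
  have hd1 := delta_le_one hα hδ hbad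
  set κ : ℝ := 1 + (1 + 1 / δ) / δ + 1 / δ with hκ
  have hκ0 : 0 < κ := by positivity
  set C : ℝ := 4 * κ * (2 * (2 * M) * (1 / δ)) with hC
  have hC0 : 0 ≤ C := by positivity
  obtain ⟨K1, hK1⟩ := exists_pow_lt_of_lt_one
    (show (0 : ℝ) < ε / (2 * (C + 1)) by positivity) (show 1 - δ < 1 by linarith)
  obtain ⟨K2, hK2⟩ := exists_pow_lt_of_lt_one
    (show (0 : ℝ) < ε / (2 * (C + 1)) by positivity)
    (show 1 / (1 + δ) < 1 by rw [div_lt_one (by linarith)]; linarith)
  obtain ⟨K3, hK3⟩ := exists_nat_ge ((N : ℝ) / δ)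
  set K := K1 + K2 + K3 + 1 with hK
  obtain ⟨n, l, τ, hl, hτ, hp⟩ := hpal (2 * K + 4)
  set i := (l + 1) / 2 with hi
  have hi1 : i + 1 ≤ l := by omega
  set a' := n + 1 + i with ha'
  set b' := n + l - i with hb'
  have hsum : a' + b' = 2 * n + l + 1 := by omega
  have hbK : K ≤ b' := by omega
  have hba1 : b' + 1 ≤ a' := by omega
  have hba2 : a' ≤ b' + 2 := by omega
  have hτabs : |(τ : ℝ)| = 1 := by
    rcases hτ with h | h <;> rw [h] <;> norm_num
  -- the reflected difference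
  let V : ℕ → ℝ := fun k => (den α k : ℝ) * β - R k
  let Y : ℕ → ℝ := fun k => V k - τ * V (2 * n + l + 1 - k)
  have hY : ∀ k, |Y k| ≤ 2 * M := by
    intro k
    refine (abs_sub _ _).trans ?_
    rw [abs_mul, hτabs, one_mul]
    have h1 : |V k| ≤ M := hM k
    have h2 : |V (2 * n + l + 1 - k)| ≤ M := hM _
    linarith
  have hYrec : ∀ j < l, Y (n + j + 2) = pq α (n + j + 1) * Y (n + j + 1) - Y (n + j) := by
    intro j hj
    have h := reflect_rec (α := α) (β := β) (R := R) n l τ hτ hp j hj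
    have e1 : 2 * n + l + 1 - (n + j + 2) = n + (l - 1 - j) := by omega
    have e2 : 2 * n + l + 1 - (n + j + 1) = n + (l - 1 - j) + 1 := by omega
    have e3 : 2 * n + l + 1 - (n + j) = n + (l - 1 - j) + 2 := by omega
    simp only [Y, V]
    rw [e1, e2, e3]
    exact h
  have hYi := window hα hδ hbad Y (2 * M) hY n l hYrec i hi1
  rw [← ha'] at hYi
  have hYa : Y a' = V a' - τ * V b' := by
    have e : 2 * n + l + 1 - a' = b' := by omega
    simp only [Y]; rw [e]
  -- monotonicity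
  have hthpos : ∀ k, 0 < th α k := fun k => (th_pos hα k).1
  have hthanti : Antitone (th α) := antitone_nat_of_succ_le (fun k => (th_lt hα k).le)
  have hdenmono : Monotone (den α) := monotone_nat_of_le_succ (fun k => by
    have := (den_inc hα k).2; omega)
  have hdenpos : ∀ k, 0 ≤ den α k := fun k => (den_inc hα k).1
  have hdenk : ∀ k : ℕ, (k : ℤ) ≤ den α k := by
    intro k
    induction k with
    | zero => exact hdenpos 0
    | succ k ih =>
      have := (den_inc hα k).2
      push_cast; omega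
  -- the integers
  set q : ℤ := den α a' - τ * den α b' with hq
  set p : ℤ := num α a' - τ * num α b' with hpdef
  set r : ℤ := R a' - τ * R b' with hr
  have hqlow : (den α (b' + 1) - den α b' : ℤ) ≤ q := by
    have h1 : den α (b' + 1) ≤ den α a' := hdenmono hba1
    have h2 := hdenpos b'
    rcases hτ with h | h <;> rw [hq, h] <;> omega
  have hqup : q ≤ 2 * den α (b' + 2) := by
    have h1 : den α a' ≤ den α (b' + 2) := hdenmono hba2
    have h2 : den α b' ≤ den α (b' + 2) := hdenmono (by omega)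
    have h3 := hdenpos b'
    have h4 := hdenpos (b' + 2)
    rcases hτ with h | h <;> rw [hq, h] <;> omega
  have hqpos : 0 < q := by
    have := (den_inc hα b').2
    omega
  have hqN : (N : ℝ) ≤ q := by
    have h1 := (step_facts hα hδ hbad b').2.1
    have h2 : (b' : ℝ) ≤ den α b' := by exact_mod_cast hdenk b'
    have h3 : ((den α (b' + 1) - den α b' : ℤ) : ℝ) ≤ q := by exact_mod_cast hqlow
    push_cast at h3
    have h4 : (K : ℝ) ≤ b' := by exact_mod_cast hbK
    have h5 : (K3 : ℝ) ≤ K := by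
      have : K3 ≤ K := by omega
      exact_mod_cast this
    rw [div_le_iff₀ hδ] at hK3
    have h6 : (K3 : ℝ) ≤ den α b' := by linarith
    have h7 : (K3 : ℝ) * δ ≤ δ * den α b' := by
      rw [mul_comm]; exact mul_le_mul_of_nonneg_left h6 hδ.le
    nlinarith
  have hqp : |(q : ℝ) * α - p| ≤ 2 * th α b' := by
    have e : (q : ℝ) * α - p = -(th α a' - τ * th α b') := by
      rw [hq, hpdef]; unfold th; push_cast; ring
    rw [e, abs_neg]
    refine (abs_sub _ _).trans ?_
    rw [abs_mul, hτabs, one_mul, abs_of_pos (hthpos _), abs_of_pos (hthpos _)]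
    have : th α a' ≤ th α b' := hthanti (by omega)
    linarith
  have hqr : |(q : ℝ) * β - r| = |Y a'| := by
    rw [hYa]
    congr 1
    simp only [V]
    rw [hq, hr]; push_cast; ring
  have hprod : (q : ℝ) * |(q : ℝ) * α - p| ≤ 4 * κ := by
    have h1 : (q : ℝ) ≤ 2 * den α (b' + 2) := by exact_mod_cast hqup
    have h2 := prod_bound hα hδ hbad b'
    have h3 : (0 : ℝ) ≤ den α (b' + 2) := by exact_mod_cast hdenpos (b' + 2)
    calc (q : ℝ) * |(q : ℝ) * α - p| ≤ (2 * den α (b' + 2)) * (2 * th α b') :=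
          mul_le_mul h1 hqp (abs_nonneg _) (by positivity)
      _ = 4 * (den α (b' + 2) * th α b') := by ring
      _ ≤ 4 * κ := by linarith
  have hsmall : (1 - δ) ^ (l - 1 - i) + 1 / (1 + δ) ^ i < ε / (C + 1) := by
    have h1 : (1 - δ) ^ (l - 1 - i) ≤ (1 - δ) ^ K1 :=
      pow_le_pow_of_le_one (by linarith) (by linarith) (by omega)
    have h2 : 1 / (1 + δ) ^ i ≤ (1 / (1 + δ)) ^ K2 := by
      rw [div_pow, one_pow]
      apply one_div_le_one_div_of_le (by positivity)
      exact pow_le_pow_right₀ (by linarith) (by omega)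
    have h3 : ε / (2 * (C + 1)) + ε / (2 * (C + 1)) = ε / (C + 1) := by
      field_simp; ring
    linarith
  have hfin : (q : ℝ) * |(q : ℝ) * α - p| * |(q : ℝ) * β - r| < ε := by
    rw [hqr]
    have h1 : (q : ℝ) * |(q : ℝ) * α - p| * |Y a'| ≤ (4 * κ) *
        (2 * (2 * M) * (1 / δ) * ((1 - δ) ^ (l - 1 - i) + 1 / (1 + δ) ^ i)) :=
      mul_le_mul hprod hYi (abs_nonneg _) (by positivity)
    have h2 : (4 * κ) * (2 * (2 * M) * (1 / δ) * ((1 - δ) ^ (l - 1 - i) + 1 / (1 + δ) ^ i)) =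
        C * ((1 - δ) ^ (l - 1 - i) + 1 / (1 + δ) ^ i) := by rw [hC]; ring
    rw [h2] at h1
    refine lt_of_le_of_lt h1 ?_
    rw [lt_div_iff₀ (by positivity)] at hsmall
    have h3 : 0 ≤ (1 - δ) ^ (l - 1 - i) := pow_nonneg (by linarith) _
    have h4 : 0 ≤ 1 / (1 + δ) ^ i := by positivity
    nlinarith
  obtain ⟨q', hq'⟩ : ∃ q' : ℕ, q = q' := ⟨q.toNat, by omega⟩
  rw [hq'] at hfin hqN hqpos
  refine ⟨q', by exact_mod_cast hqN, by exact_mod_cast hqpos, p, r, ?_⟩
  exact_mod_cast hfin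

/-- Palindromic coding criterion: if the sequence of pairs (minus continued fraction digit of `α`,
digit of `β`) contains arbitrarily long palindromes (or skew palindromes), then Littlewood's
conjecture holds for `(α, β)`. -/
theorem palindromic (α β : ℝ) (hα : Irrational α) (R : ℕ → ℤ)
    (hR : ∃ M : ℝ, ∀ k, |(den α k : ℝ) * β - R k| ≤ M)
    (hpal : ∀ L : ℕ, ∃ n l : ℕ, ∃ τ : ℤ, L ≤ l ∧ (τ = 1 ∨ τ = -1) ∧
      ∀ i < l, pq α (n + i + 1) = pq α (n + (l - 1 - i) + 1) ∧
        digit α R (n + i) = τ * digit α R (n + (l - 1 - i))) :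
    ∀ ε : ℝ, 0 < ε → ∀ N : ℕ, ∃ q : ℕ, N ≤ q ∧ 0 < q ∧
      (q : ℝ) * |(q : ℝ) * α - (round ((q : ℝ) * α) : ℝ)|
        * |(q : ℝ) * β - (round ((q : ℝ) * β) : ℝ)| < ε := by
  intro ε hε N
  obtain ⟨M, hM⟩ := hR
  by_cases hb : ∀ ε : ℝ, 0 < ε → ∀ N : ℕ, ∃ q : ℕ, N ≤ q ∧ 0 < q ∧
      (q : ℝ) * |(q : ℝ) * α - (round ((q : ℝ) * α) : ℝ)| < ε
  · obtain ⟨q, hq, hq0, h⟩ := hb ε hε N
    refine ⟨q, hq, hq0, ?_⟩
    have h1 := abs_sub_round ((q : ℝ) * β)
    have h2 : 0 ≤ (q : ℝ) * |(q : ℝ) * α - (round ((q : ℝ) * α) : ℝ)| := by positivity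
    nlinarith [abs_nonneg ((q : ℝ) * β - (round ((q : ℝ) * β) : ℝ))]
  · push Not at hb
    obtain ⟨ε0, hε0, N0, hN0⟩ := hb
    set m : ℕ := N0 + 1 with hm
    have hmpos : (0 : ℝ) < m := by positivity
    have hδ : 0 < ε0 / (m : ℝ) ^ 2 := by positivity
    have hbad : ∀ q : ℕ, 0 < q → ∀ p : ℤ, ε0 / (m : ℝ) ^ 2 ≤ (q : ℝ) * |(q : ℝ) * α - p| := by
      intro q hq p
      have h1 := hN0 (m * q) (by nlinarith) (Nat.mul_pos (by omega) hq)
      have h2 := round_le (((m * q : ℕ) : ℝ) * α) (m * p)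
      have h3 : |((m * q : ℕ) : ℝ) * α - ((m * p : ℤ) : ℝ)| = m * |(q : ℝ) * α - p| := by
        have e : ((m * q : ℕ) : ℝ) * α - ((m * p : ℤ) : ℝ) = m * ((q : ℝ) * α - p) := by
          push_cast; ring
        rw [e, abs_mul, abs_of_pos hmpos]
      rw [h3] at h2
      rw [div_le_iff₀ (by positivity)]
      have h4 : ((m * q : ℕ) : ℝ) * |((m * q : ℕ) : ℝ) * α -
          (round (((m * q : ℕ) : ℝ) * α) : ℝ)| ≤ ((m * q : ℕ) : ℝ) * (m * |(q : ℝ) * α - p|) :=
        mul_le_mul_of_nonneg_left h2 (Nat.cast_nonneg _)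
      have h5 : ((m * q : ℕ) : ℝ) * (m * |(q : ℝ) * α - p|) =
          (q : ℝ) * |(q : ℝ) * α - p| * (m : ℝ) ^ 2 := by push_cast; ring
      linarith
    obtain ⟨q, hq, hq0, p, r, h⟩ := bad_case hα hδ hbad hM hpal ε hε N
    refine ⟨q, hq, hq0, lt_of_le_of_lt ?_ h⟩
    apply mul_le_mul _ (round_le _ _) (abs_nonneg _) (by positivity)
    exact mul_le_mul_of_nonneg_left (round_le _ _) (Nat.cast_nonneg _)

end Pool.Agent.H1.PC
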